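import Pool.Agent.Helper64.Hia.NonHered
import Pool.Agent.Helper75.Hia.BlockO
import Pool.Agent.Helper89.Hia.Main
import Pool.Agent.Helper89.Hia.Number

/-!
MP_5ace61_lc, full positive answer: ZFC proves `s ≤ hia`.

`Pool.Agent.Hia.isIntervalAlgebra_iff` (in `Pool/Agent/Helper75/Hia/BlockO.lean`) shows that the
definition of interval algebras by generating chains agrees with the one by half-open intervals of
a linear order.
-/

open Cardinal

namespace Pool.Agent.Results.MP_5ace61_lc.SplittingLeHia

open Pool.Agent.Hia

/-- The splitting number is at most `hia`. -/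
theorem result : splittingNumber ≤ hia := by
  have hne : {κ : Cardinal.{0} | ∃ (B : Type) (_ : BooleanAlgebra B),
      IsSigmaCentered B ∧ IsIntervalAlgebra B ∧ ¬ IsHereditary B ∧ #B = κ}.Nonempty := by
    obtain ⟨B, hB, h1, h2, h3⟩ := exists_nonhereditary
    exact ⟨_, B, hB, h1, h2, h3, rfl⟩
  obtain ⟨B, hB, h1, h2, h3, h4⟩ := csInf_mem hne
  have h5 : splittingNumber ≤ #B := by
    have h := splittingNumber_le_card B h1 h2 h3
    rwa [Cardinal.lift_uzero] at h
  rw [h4] at h5
  exact h5

end Pool.Agent.Results.MP_5ace61_lc.SplittingLeHia
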